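import Pool.Agent.H9.SR3

namespace Pool.Agent.Results.MP_da2ee6_an.Dense
open Filter Topology WeakDual ZeroAtInfty

variable {A : Type*} [NonUnitalNormedCommRing A] [NormedSpace ℂ A]

/-- `pw x n` is the power `x ^ (n + 1)` (the algebra need not have an identity). -/
def pw (x : A) : ℕ → A
  | 0 => x
  | n + 1 => x * pw x n

/-- spectral radius of `x`, by Gelfand's formula `inf_{n ≥ 1} ‖x ^ n‖ ^ (1 / n)` -/
noncomputable def rad (x : A) : ℝ := ⨅ n : ℕ, ‖pw x n‖ ^ (((n + 1 : ℕ) : ℝ))⁻¹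

/-- spectral radius of the coset `x + I` in `A / I`, by the same formula; the quotient norm of
`x ^ n + I` is the distance from `x ^ n` to `I` -/
noncomputable def quotRad (I : Submodule ℂ A) (x : A) : ℝ :=
  ⨅ n : ℕ, Metric.infDist (pw x n) (I : Set A) ^ (((n + 1 : ℕ) : ℝ))⁻¹

variable (A) in
/-- SR-algebra: `ν(x + I) = inf_{y ∈ I} ν(x + y)` for all proper closed ideals `I` and all `x` -/
def IsSR : Prop := ∀ I : Submodule ℂ A, (∀ a : A, ∀ y ∈ I, a * y ∈ I) → IsClosed (I : Set A) →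
  I ≠ ⊤ → ∀ x : A, quotRad I x = ⨅ y : I, rad (x + y)

theorem result (A : Type*) [NonUnitalNormedCommRing A] [NormedSpace ℂ A] [IsScalarTower ℂ A A]
    [SMulCommClass ℂ A A] [CompleteSpace A] (h : IsSR A) (g : C₀(characterSpace ℂ A, ℂ))
    (ε : ℝ) (hε : 0 < ε) : ∃ a : A, ∀ φ : characterSpace ℂ A, ‖g φ - φ a‖ < ε := by
  refine H9.SR.dense (fun I h1 h2 x c hx => ?_) g hε
  rcases eq_or_ne I ⊤ with rfl | h3
  · exact ⟨-x, trivial, fun φ => by simpa using by positivity⟩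
  have h4 : ∀ n, pw x n - c ^ n • x ∈ I := fun n => by
    induction n with
    | zero => simp [pw]
    | succ n ih =>
      convert I.add_mem (h1 x _ ih) (I.smul_mem (c ^ n) hx) using 1
      rw [pw, mul_sub, mul_smul_comm, smul_sub, smul_smul, pow_succ, sub_add_sub_cancel]
  have h5 : 0 < ‖c‖ + 1 := by positivity
  obtain ⟨n, hn⟩ := (((tendsto_pow_atTop_nhds_zero_of_lt_one (r := ‖c‖ / (‖c‖ + 1)) (by positivity)
    ((div_lt_one h5).2 (lt_add_one _))).mul_const ‖x‖).eventually_lt_const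
    ((zero_mul _).trans_lt h5)).exists
  rw [div_pow, div_mul_eq_mul_div, div_lt_iff₀' (by positivity), ← pow_succ] at hn
  obtain ⟨y, hy⟩ := exists_lt_of_ciInf_lt ((h I h1 h2 h3 x).symm.trans_lt ((ciInf_le
    ⟨0, fun _ ⟨_, e⟩ => e ▸ Real.rpow_nonneg Metric.infDist_nonneg _⟩ n).trans_lt
    ((Real.rpow_lt_rpow Metric.infDist_nonneg (((Metric.infDist_le_dist_of_mem (h4 n)).trans_eq
      (by simp [norm_smul])).trans_lt hn) (by positivity)).trans_eq
      (Real.pow_rpow_inv_natCast h5.le n.succ_ne_zero))))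
  refine ⟨y, y.2, fun φ => le_trans (le_ciInf fun n => ?_) hy.le⟩
  have h6 : ∀ n, φ.1 (pw (x + y) n) = φ.1 (x + y) ^ (n + 1) := fun n => by
    induction n with
    | zero => exact (pow_one _).symm
    | succ n ih => rw [pw, φ.2, ih, ← pow_succ']
  rw [← Real.pow_rpow_inv_natCast (norm_nonneg (φ.1 (x + y))) n.succ_ne_zero, ← norm_pow, ← h6]
  exact Real.rpow_le_rpow (norm_nonneg _) (H9.SR.K_le φ _) (by positivity)

end Pool.Agent.Results.MP_da2ee6_an.Dense
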